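import Pool.Agent.Helper920_Ratio.TailT

/-! The strong independent set sequence of a hypergraph is nonincreasing from an explicit
index on. -/

set_option autoImplicit false

namespace Pool.Agent.Results.MP_16d252_co.HypergraphTail

open Pool.Agent.Helper920.Ratio

/-- The graph joining two distinct vertices that lie in a common edge. -/
def sec {V : Type} (E : Set (Finset V)) : SimpleGraph V where
  Adj x y := x ≠ y ∧ ∃ e ∈ E, x ∈ e ∧ y ∈ e
  symm := ⟨fun _ _ h => ⟨h.1.symm, h.2.imp fun _ he => ⟨he.1, he.2.2, he.2.1⟩⟩⟩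
  loopless := ⟨fun _ h => h.1 rfl⟩

lemma sec_iff {V : Type} [DecidableEq V] (E : Set (Finset V)) (J : Finset V) :
    (∀ e ∈ E, (J ∩ e).card ≤ 1) ↔ Indep (sec E) J := by
  constructor
  · rintro h x hx y hy ⟨hne, e, he, hxe, hye⟩
    have h1 := h e he
    rw [Finset.card_le_one] at h1
    exact hne (h1 x (Finset.mem_inter.2 ⟨hx, hxe⟩) y (Finset.mem_inter.2 ⟨hy, hye⟩))
  · intro h e he
    rw [Finset.card_le_one]
    intro x hx y hy
    rw [Finset.mem_inter] at hx hy
    by_contra hne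
    exact h x hx.1 y hy.1 ⟨hne, e, he, hx.2, hy.2⟩

lemma count_eq {V : Type} [Fintype V] [DecidableEq V] (E : Set (Finset V)) (k : ℕ) :
    Nat.card {S : Finset V // (∀ e ∈ E, (S ∩ e).card ≤ 1) ∧ S.card = k} =
      (ind (sec E) k).card := by
  classical
  rw [Nat.card_eq_fintype_card, Fintype.card_subtype]
  congr 1
  ext J
  rw [mem_ind, Finset.mem_filter, sec_iff]
  constructor
  · rintro ⟨_, h⟩; exact h
  · intro h; exact ⟨Finset.mem_univ _, h⟩

/-- Let `H = (V, E)` be a hypergraph on `n` vertices whose strong independent sets have at most `α`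
vertices. If `n (k + 1) + t (t + 1) α k ≤ ((t + 1) k + 1) ((t + 2) k + 1)` for some `t`, then
`i_l(H) ≥ i_{l+1}(H)` for all `l ≥ k`. -/
theorem result : ∀ (V : Type) [Fintype V] [DecidableEq V] (E : Set (Finset V)) (α t : ℕ),
    (∀ S : Finset V, (∀ e ∈ E, (S ∩ e).card ≤ 1) → S.card ≤ α) →
    ∀ k : ℕ, Fintype.card V * (k + 1) + t * (t + 1) * α * k ≤
        ((t + 1) * k + 1) * ((t + 2) * k + 1) →
      ∀ l : ℕ, k ≤ l →
        Nat.card {S : Finset V // (∀ e ∈ E, (S ∩ e).card ≤ 1) ∧ S.card = l + 1} ≤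
          Nat.card {S : Finset V // (∀ e ∈ E, (S ∩ e).card ≤ 1) ∧ S.card = l} := by
  intro V _ _ E α t hα k hk l hl
  rw [count_eq, count_eq]
  have hα' : ∀ J : Finset V, Indep (sec E) J → J.card ≤ α :=
    fun J hJ => hα J ((sec_iff E J).2 hJ)
  rcases Nat.eq_zero_or_pos k with hk0 | hk0
  · subst hk0
    have hn : Fintype.card V ≤ 1 := by simpa using hk
    rcases Nat.eq_zero_or_pos l with hl0 | hl0
    · subst hl0
      exact tail_t (sec E) t α 0 hα' hk
    · have h0 : (ind (sec E) (l + 1)).card = 0 := by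
        rw [Finset.card_eq_zero, Finset.eq_empty_iff_forall_notMem]
        intro J hJ
        have h1 := (mem_ind.1 hJ).2
        have h2 := Finset.card_le_univ J
        omega
      rw [h0]
      exact Nat.zero_le _
  · refine tail_t (sec E) t α l hα' ?_
    obtain ⟨s, rfl⟩ : ∃ s, l = k + s := ⟨l - k, by omega⟩
    obtain ⟨n, hn⟩ : ∃ n, n = Fintype.card V := ⟨_, rfl⟩
    rw [← hn] at hk ⊢
    obtain ⟨P, hP⟩ : ∃ P, P = n + t * (t + 1) * α := ⟨_, rfl⟩
    obtain ⟨Q, hQ⟩ : ∃ Q, Q = (t + 1) * (t + 2) := ⟨_, rfl⟩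
    have hQ2 : 2 ≤ Q := by rw [hQ]; nlinarith
    have hk' : P * k + n ≤ Q * k ^ 2 + (2 * t + 3) * k + 1 := by
      have e1 : n * (k + 1) + t * (t + 1) * α * k = P * k + n := by rw [hP]; ring
      have e2 : ((t + 1) * k + 1) * ((t + 2) * k + 1) = Q * k ^ 2 + (2 * t + 3) * k + 1 := by
        rw [hQ]; ring
      rw [e1, e2] at hk
      exact hk
    have hb : P ≤ Q * (2 * k) + (2 * t + 3) := by
      by_contra hcon
      push Not at hcon
      have h1 : (Q * (2 * k) + (2 * t + 3) + 1) * k ≤ P * k := Nat.mul_le_mul_right _ hcon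
      have h2 : 2 * 1 ≤ Q * k ^ 2 := Nat.mul_le_mul hQ2 (Nat.one_le_pow _ _ hk0)
      nlinarith
    have goal' : P * (k + s) + n ≤ Q * (k + s) ^ 2 + (2 * t + 3) * (k + s) + 1 := by
      have h1 : P * s ≤ (Q * (2 * k) + (2 * t + 3)) * s := Nat.mul_le_mul_right _ hb
      nlinarith [Nat.zero_le (Q * s ^ 2)]
    have e1 : n * (k + s + 1) + t * (t + 1) * α * (k + s) = P * (k + s) + n := by rw [hP]; ring
    have e2 : ((t + 1) * (k + s) + 1) * ((t + 2) * (k + s) + 1) =
        Q * (k + s) ^ 2 + (2 * t + 3) * (k + s) + 1 := by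
      rw [hQ]; ring
    rw [e1, e2]
    exact goal'

end Pool.Agent.Results.MP_16d252_co.HypergraphTail
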